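import Pool.Agent.ZAR.Stmts

/-!
# ZAR, rows DIC and BAS
-/

set_option linter.all false

namespace Pool.Agent.ZAR.H90

open MvPowerSeries Pool.Agent.ZAR

section

variable {n : ℕ} {K : Type} [Field K]

/-- the constant derivation `∑ e_j ∂_j` -/
noncomputable def Dd (e : Fin n → K) : Derivation K (MvPowerSeries (Fin n) K) (MvPowerSeries (Fin n) K) :=
  ∑ j, (C (e j) : MvPowerSeries (Fin n) K) • pderiv K j

theorem Dd_apply (e : Fin n → K) (f : MvPowerSeries (Fin n) K) :
    Dd e f = ∑ j, C (e j) * pderiv K j f := by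
  have h : ∀ s : Finset (Fin n), (∑ j ∈ s, (C (e j) : MvPowerSeries (Fin n) K) • pderiv K j :
      Derivation K (MvPowerSeries (Fin n) K) (MvPowerSeries (Fin n) K)) f =
      ∑ j ∈ s, C (e j) * pderiv K j f := by
    intro s
    classical
    induction s using Finset.induction_on with
    | empty => simp
    | insert a s ha ih =>
      rw [Finset.sum_insert ha, Finset.sum_insert ha, Derivation.add_apply, ih]
      rfl
  exact h Finset.univ

theorem stab_iff (e : Fin n → K) (I : Ideal (MvPowerSeries (Fin n) K)) :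
    Stab e I ↔ ∀ f ∈ I, Dd e f ∈ I := by
  unfold Stab
  simp only [Dd_apply]

theorem stab_iter {e : Fin n → K} {I : Ideal (MvPowerSeries (Fin n) K)} (h : Stab e I)
    {f : MvPowerSeries (Fin n) K} (hf : f ∈ I) (m : ℕ) : (Dd e)^[m] f ∈ I := by
  rw [stab_iff] at h
  induction m generalizing f with
  | zero => exact hf
  | succ m ih => rw [Function.iterate_succ_apply]; exact ih (h f hf)

theorem pderiv_comm (i j : Fin n) (f : MvPowerSeries (Fin n) K) :
    pderiv K i (pderiv K j f) = pderiv K j (pderiv K i f) := by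
  by_cases hij : i = j
  · rw [hij]
  ext m
  rw [coeff_pderiv, coeff_pderiv, coeff_pderiv, coeff_pderiv]
  have h1 : m + Finsupp.single i 1 + Finsupp.single j 1 = m + Finsupp.single j 1 + Finsupp.single i 1 := by
    rw [add_right_comm]
  have h2 : (m + Finsupp.single i 1 : Fin n →₀ ℕ) j = m j := by
    rw [Finsupp.add_apply, Finsupp.single_eq_of_ne (Ne.symm hij), add_zero]
  have h3 : (m + Finsupp.single j 1 : Fin n →₀ ℕ) i = m i := by
    rw [Finsupp.add_apply, Finsupp.single_eq_of_ne hij, add_zero]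
  rw [h1, h2, h3]
  ring

theorem pderiv_C_mul (i : Fin n) (c : K) (f : MvPowerSeries (Fin n) K) :
    pderiv K i (C c * f) = C c * pderiv K i f := by
  have h : (C c * f : MvPowerSeries (Fin n) K) = c • f := by
    rw [MvPowerSeries.smul_eq_C_mul]
  rw [h, Derivation.map_smul, MvPowerSeries.smul_eq_C_mul]

theorem Dd_pderiv (e : Fin n → K) (i : Fin n) (f : MvPowerSeries (Fin n) K) :
    Dd e (pderiv K i f) = pderiv K i (Dd e f) := by
  rw [Dd_apply, Dd_apply, map_sum]
  refine Finset.sum_congr rfl fun j _ => ?_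
  rw [pderiv_C_mul, pderiv_comm]

theorem span_stab (e : Fin n → K) (T : Set (MvPowerSeries (Fin n) K))
    (h : ∀ f ∈ T, Dd e f ∈ Ideal.span T) : Stab e (Ideal.span T) := by
  rw [stab_iff]
  intro f hf
  induction hf using Submodule.span_induction with
  | mem x hx => exact h x hx
  | zero => rw [map_zero]; exact Ideal.zero_mem _
  | add x y _ _ hx hy => rw [map_add]; exact Ideal.add_mem _ hx hy
  | smul a x hx' hx =>
    rw [smul_eq_mul, Derivation.leibniz]
    exact Ideal.add_mem _ (Ideal.mul_mem_left _ _ hx)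
      (Ideal.mul_mem_right _ _ hx')

theorem singI_stab {e : Fin n → K} {I : Ideal (MvPowerSeries (Fin n) K)} (h : Stab e I) :
    Stab e (singI I) := by
  unfold singI
  refine span_stab e _ ?_
  rw [stab_iff] at h
  rintro f (hf | ⟨g, hg, i, rfl⟩)
  · exact Ideal.subset_span (Or.inl (h f hf))
  · rw [Dd_pderiv]
    exact Ideal.subset_span (Or.inr ⟨Dd e g, h g hg, i, rfl⟩)

/-! ### restriction to the line -/

theorem hasSubst_line (e : Fin n → K) :
    HasSubst (fun i => (C (e i) * X 0 : MvPowerSeries (Fin 1) K)) :=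
  hasSubst_of_constantCoeff_zero fun i => by simp

theorem evL_eq (e : Fin n → K) (f : MvPowerSeries (Fin n) K) :
    evL e f = substAlgHom (hasSubst_line e) f := by
  unfold evL
  rw [coe_substAlgHom]

theorem evL_C (e : Fin n → K) (c : K) : evL e (C c) = C c := by
  rw [evL_eq]
  exact (substAlgHom (hasSubst_line e)).commutes c

theorem pderiv_line (e : Fin n → K) (i : Fin n) :
    pderiv K (0 : Fin 1) (C (e i) * X 0 : MvPowerSeries (Fin 1) K) = C (e i) := by
  rw [pderiv_C_mul, pderiv_X]
  simp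

theorem evL_Dd (hCHA : CHAStmt) (e : Fin n → K) (f : MvPowerSeries (Fin n) K) :
    evL e (Dd e f) = pderiv K 0 (evL e f) := by
  have h := hCHA K n 1 (fun i => (C (e i) * X 0 : MvPowerSeries (Fin 1) K)) (fun i => by simp) f 0
  show evL e (Dd e f) = pderiv K 0 (subst (fun i => (C (e i) * X 0 : MvPowerSeries (Fin 1) K)) f)
  rw [h, Dd_apply, evL_eq, map_sum]
  refine Finset.sum_congr rfl fun i _ => ?_
  rw [map_mul, ← evL_eq, ← evL_eq, evL_C, pderiv_line, mul_comm]
  rfl

theorem evL_iter (hCHA : CHAStmt) (e : Fin n → K) (m : ℕ) (f : MvPowerSeries (Fin n) K) :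
    evL e ((Dd e)^[m] f) = (pderiv K (0 : Fin 1))^[m] (evL e f) := by
  induction m generalizing f with
  | zero => rfl
  | succ m ih => rw [Function.iterate_succ_apply, Function.iterate_succ_apply, ih, evL_Dd hCHA]

theorem one_var [CharZero K] (m : ℕ) (f : MvPowerSeries (Fin 1) K)
    (h : coeff (Finsupp.single (0 : Fin 1) m) f ≠ 0) :
    constantCoeff ((pderiv K (0 : Fin 1))^[m] f) ≠ 0 := by
  induction m generalizing f with
  | zero => simpa using h
  | succ m ih =>
    rw [Function.iterate_succ_apply]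
    apply ih
    rw [coeff_pderiv, ← Finsupp.single_add]
    refine mul_ne_zero h ?_
    rw [Finsupp.single_eq_same]
    exact_mod_cast Nat.succ_ne_zero m

theorem constantCoeff_evL (e : Fin n → K) (f : MvPowerSeries (Fin n) K) :
    constantCoeff (evL e f) = constantCoeff f := by
  unfold evL
  rw [constantCoeff_subst (hasSubst_line e)]
  rw [finsum_eq_single _ 0]
  · simp
  · intro d hd
    have : constantCoeff (d.prod fun s k => (C (e s) * X 0 : MvPowerSeries (Fin 1) K) ^ k) = 0 := by
      obtain ⟨s, hs⟩ : ∃ s, d s ≠ 0 := by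
        by_contra hcon
        push Not at hcon
        exact hd (Finsupp.ext hcon)
      rw [Finsupp.prod, map_prod]
      refine Finset.prod_eq_zero (Finsupp.mem_support_iff.2 hs) ?_
      rw [map_pow, map_mul]
      simp [hs]
    rw [this, smul_zero]

theorem unit_iter [CharZero K] (hCHA : CHAStmt) (e : Fin n → K) (g : MvPowerSeries (Fin n) K)
    (hg : evL e g ≠ 0) : ∃ m : ℕ, IsUnit ((Dd e)^[m] g) := by
  obtain ⟨d, hd⟩ : ∃ d, coeff d (evL e g) ≠ 0 := by
    by_contra hcon
    push Not at hcon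
    exact hg (MvPowerSeries.ext fun d => by rw [hcon d, map_zero])
  have hd' : d = Finsupp.single (0 : Fin 1) (d 0) := by
    refine Finsupp.ext fun i => ?_
    rw [Subsingleton.elim i 0, Finsupp.single_eq_same]
  rw [hd'] at hd
  refine ⟨d 0, ?_⟩
  rw [isUnit_iff_constantCoeff, ← constantCoeff_evL e, evL_iter hCHA, isUnit_iff_ne_zero]
  exact one_var _ _ hd

end

/-- DIC. -/
theorem dic (hCHA : CHAStmt) (hKER : KERStmt) : DICStmt := by
  intro K _ _ n e I he hS
  by_cases h : singI I ≤ PL e
  · exact Or.inl h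
  · right
    obtain ⟨g, hg, hg'⟩ := Set.not_subset.1 h
    have h1 : evL e g ≠ 0 := fun h0 => hg' ((hKER K n e he g).2 h0)
    obtain ⟨m, hm⟩ := unit_iter hCHA e g h1
    exact Ideal.eq_top_of_isUnit_mem _ (stab_iter (singI_stab hS) hg m) hm

section two

variable {K : Type} [Field K]

/-- the linear form of the line -/
noncomputable def lf (e : Fin 2 → K) : MvPowerSeries (Fin 2) K := C (e 0) * X 1 - C (e 1) * X 0

theorem PL_two (e : Fin 2 → K) : PL e = Ideal.span {lf e} := by
  unfold PL
  apply le_antisymm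
  · rw [Ideal.span_le]
    rintro f ⟨i, j, rfl⟩
    have h0 : lf e ∈ Ideal.span {lf e} := Ideal.mem_span_singleton_self _
    fin_cases i <;> fin_cases j
    · simp
    · exact h0
    · have : (C (e 1) * X 0 - C (e 0) * X 1 : MvPowerSeries (Fin 2) K) = - lf e := by
        unfold lf; ring
      show (C (e 1) * X 0 - C (e 0) * X 1 : MvPowerSeries (Fin 2) K) ∈ Ideal.span {lf e}
      rw [this]
      exact neg_mem h0
    · simp
  · rw [Ideal.span_le, Set.singleton_subset_iff]
    exact Ideal.subset_span ⟨0, 1, rfl⟩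

theorem pderiv_lf0 (e : Fin 2 → K) : pderiv K 0 (lf e) = - C (e 1) := by
  unfold lf
  rw [map_sub, pderiv_C_mul, pderiv_C_mul, pderiv_X, pderiv_X]
  simp

theorem pderiv_lf1 (e : Fin 2 → K) : pderiv K 1 (lf e) = C (e 0) := by
  unfold lf
  rw [map_sub, pderiv_C_mul, pderiv_C_mul, pderiv_X, pderiv_X]
  simp

theorem Dd_lf (e : Fin 2 → K) : Dd e (lf e) = 0 := by
  rw [Dd_apply, Fin.sum_univ_two, pderiv_lf0, pderiv_lf1]
  ring

theorem Dd_iter_mul (e : Fin 2 → K) (m j : ℕ) (g : MvPowerSeries (Fin 2) K) :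
    (Dd e)^[j] (lf e ^ m * g) = lf e ^ m * (Dd e)^[j] g := by
  have h1 : Dd e (lf e ^ m) = 0 := by
    rw [Derivation.leibniz_pow, Dd_lf]
    simp
  induction j generalizing g with
  | zero => rfl
  | succ j ih =>
    rw [Function.iterate_succ_apply, Derivation.leibniz, h1, smul_zero, add_zero, smul_eq_mul, ih,
      Function.iterate_succ_apply]

theorem exists_factor (e : Fin 2 → K) {f : MvPowerSeries (Fin 2) K} (hf : f ≠ 0) :
    ∃ (m : ℕ) (g : MvPowerSeries (Fin 2) K), f = lf e ^ m * g ∧ ¬ lf e ∣ g := by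
  classical
  have hex : ∃ m : ℕ, ¬ lf e ^ m ∣ f := by
    by_contra hcon
    push Not at hcon
    apply hf
    rw [← MvPowerSeries.order_eq_top_iff]
    rw [ENat.eq_top_iff_forall_ge]
    intro m
    obtain ⟨g, hg⟩ := hcon m
    have h1 : (1 : ℕ∞) ≤ (lf e).order := by
      rw [MvPowerSeries.one_le_order_iff_constCoeff_eq_zero]
      unfold lf
      simp
    have h2 : (m : ℕ∞) ≤ (lf e ^ m).order := by
      have h3 : m • (lf e).order ≤ (lf e ^ m).order := MvPowerSeries.le_order_pow m
      refine le_trans ?_ h3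
      rw [nsmul_eq_mul]
      calc (m : ℕ∞) = m * 1 := (mul_one _).symm
        _ ≤ m * (lf e).order := mul_le_mul_right h1 _
    rw [hg]
    exact h2.trans (le_trans (le_add_right le_rfl) MvPowerSeries.le_order_mul)
  have h0 := Nat.find_spec hex
  set m := Nat.find hex with hm
  have hpos : m ≠ 0 := by
    intro h
    rw [h] at h0
    exact h0 (by simp)
  obtain ⟨k, hk⟩ := Nat.exists_eq_succ_of_ne_zero hpos
  have h1 : lf e ^ k ∣ f := by
    by_contra hcon
    have := Nat.find_min' hex hcon
    omega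
  obtain ⟨g, hg⟩ := h1
  refine ⟨k, g, hg, fun hd => h0 ?_⟩
  obtain ⟨q, hq⟩ := hd
  rw [hk, hg, hq, pow_succ]
  exact ⟨q, by ring⟩

end two

/-- BAS. -/
theorem bas (hCHA : CHAStmt) (hKER : KERStmt) : BASStmt := by
  intro K _ _ e I he hS hR hI
  have hPL : PL e ≠ ⊤ := by
    intro h
    have h1 : (C 1 : MvPowerSeries (Fin 2) K) ∈ PL e := by rw [h]; exact Submodule.mem_top
    rw [hKER K 2 e he, evL_C] at h1
    simp at h1
  have key : singI I = ⊤ := by
    obtain ⟨f, hf, hf0⟩ := Submodule.exists_mem_ne_zero_of_ne_bot hI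
    obtain ⟨m, g, hfg, hg⟩ := exists_factor e hf0
    have h1 : evL e g ≠ 0 := by
      intro h0
      have := (hKER K 2 e he g).2 h0
      rw [PL_two, Ideal.mem_span_singleton] at this
      exact hg this
    obtain ⟨j, hj⟩ := unit_iter hCHA e g h1
    have h2 : lf e ^ m * (Dd e)^[j] g ∈ I := by
      rw [← Dd_iter_mul, ← hfg]
      exact stab_iter hS hf j
    have h3 : lf e ^ m ∈ I := (Ideal.mul_unit_mem_iff_mem I hj).1 h2
    have h4 : lf e ∈ I := hR ⟨m, h3⟩
    have h5 : ∀ i, pderiv K i (lf e) ∈ singI I := fun i =>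
      Ideal.subset_span (Or.inr ⟨lf e, h4, i, rfl⟩)
    by_cases h0 : e 0 = 0
    · have h6 : e 1 ≠ 0 := by
        intro h7
        apply he
        funext i
        fin_cases i
        · exact h0
        · exact h7
      have h7 := h5 0
      rw [pderiv_lf0] at h7
      refine Ideal.eq_top_of_isUnit_mem _ h7 ?_
      rw [isUnit_iff_constantCoeff, isUnit_iff_ne_zero]
      simpa using h6
    · have h7 := h5 1
      rw [pderiv_lf1] at h7
      refine Ideal.eq_top_of_isUnit_mem _ h7 ?_
      rw [isUnit_iff_constantCoeff, isUnit_iff_ne_zero]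
      simpa using h0
  refine ⟨?_, key⟩
  rw [key]
  intro h
  exact hPL (top_le_iff.1 h)

end Pool.Agent.ZAR.H90
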